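import Pool.Agent.Helper74.TY.XSel
import Pool.Agent.Helper13.TY.XHit
import Pool.Agent.Helper62.TY.XCap
import Pool.Agent.Helper34.TY.XFS

/-!
MP_8ee768_co, project TH-Y', stage X: the check of one root code in the form of the generated
modules, with all the parameters fixed.
-/

set_option autoImplicit false

namespace Pool.Agent.Helper27.TY

open Pool.Agent.Helper74.TY
open Pool.Agent.Helper13.TY (xJ xK xK_dead jSound_xJ pre fw pw tag sts)
open Pool.Agent.Helper55.TY.M10 (KillOK)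
open Pool.Agent.Helper62.TY.XCap (capK capK_ok)
open Pool.Agent.Helper34.TY (xf xf_sound)

/-- `xK` with a comparison of the common parts of the two lanes: the joiner calls it also for some
pairs of lanes with different tops, which have only equal keys -/
def xK2 (K : ℕ → Bool) (ss : List ℕ) (c e1 e2 : ℕ) : Bool :=
  @Bool.rec (fun _ => Bool) true
    (@Bool.rec (fun _ => Bool) true
      ((fun f => @Bool.rec (fun _ => Bool) (sts K (pw c e1 e2) f (tag e1 e2) ss) true (K f))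
        (fw c e1 e2)) (Nat.beq (Nat.shiftRight e1 210) (Nat.shiftRight e2 210)))
    (pre (Nat.mod c 1180591620717411303424) e1 e2)

theorem xK_of_xK2 {K : ℕ → Bool} {ss : List ℕ} {c e1 e2 : ℕ} (he : e1 >>> 210 = e2 >>> 210)
    (h : xK2 K ss c e1 e2 = true) : xK K ss c e1 e2 = true := by
  have hb : Nat.beq (Nat.shiftRight e1 210) (Nat.shiftRight e2 210) = true := by
    rw [Nat.beq_eq]
    exact he
  unfold xK2 at h
  rw [hb] at h
  exact h

theorem jSound_xK2 {K : ℕ → Bool} (hK : ∀ B, XVec B 12 Y8 → KillOK K B) {lim1 lim2 c : ℕ}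
    (hc : c < 2 ^ 495) (ss : List ℕ) : JSound 576 c (xJ lim1 lim2 (xK2 K ss c)) :=
  jSound_xJ fun _ _ h1 _ he h => xK_dead hK hc h1 (xK_of_xK2 he h)

/-- the check of one root code: types, lights and lists of the two positions, streams, code, words
of the two frames -/
noncomputable def xc (T1 P1 : ℕ) (pl1 : List ((ℕ × ℕ) × ℕ × List (ℕ × ℕ))) (T2 P2 : ℕ)
    (pl2 : List ((ℕ × ℕ) × ℕ × List (ℕ × ℕ))) (ss : List ℕ) (c lv1 v1 lv2 v2 : ℕ) : Bool :=
  Nat.blt c (2 ^ 495) &&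
    xChk 576 1100 xf (xJ 380 6000 (xK2 capK ss c)) T1 P1 pl1 T2 P2 pl2 0 c lv1 v1 lv2 v2

/-- **one root code is dead** -/
theorem xc_sound {T1 P1 : ℕ} {pl1 : List ((ℕ × ℕ) × ℕ × List (ℕ × ℕ))} {T2 P2 : ℕ}
    {pl2 : List ((ℕ × ℕ) × ℕ × List (ℕ × ℕ))} {ss : List ℕ} {c lv1 v1 lv2 v2 : ℕ}
    (h1 : XSel 576 okC T1 P1 pl1) (l1 : T1 < 2 ^ 165) (h2 : XSel 576 okC T2 P2 pl2)
    (l2 : T2 < 2 ^ 165) (h : xc T1 P1 pl1 T2 P2 pl2 ss c lv1 v1 lv2 v2 = true) : XDead c := by
  unfold xc at h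
  rw [Bool.and_eq_true, Nat.blt_eq] at h
  exact xChk_sound (by norm_num) xf_sound h1 l1 h2 l2 h.1
    (jSound_xK2 (fun _ hB => capK_ok hB) h.1 ss) h.2

theorem dead_nil : ∀ c ∈ ([] : List ℕ), XDead c := fun _ h => absurd h List.not_mem_nil

theorem dead_cons {c : ℕ} {cs : List ℕ} (h : XDead c) (hs : ∀ d ∈ cs, XDead d) :
    ∀ d ∈ c :: cs, XDead d := by
  intro d hd
  rcases List.mem_cons.1 hd with rfl | hd
  · exact h
  · exact hs d hd

theorem dead_append {cs ds : List ℕ} (h : ∀ d ∈ cs, XDead d) (hs : ∀ d ∈ ds, XDead d) :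
    ∀ d ∈ cs ++ ds, XDead d := by
  intro d hd
  rcases List.mem_append.1 hd with hd | hd
  · exact h d hd
  · exact hs d hd

end Pool.Agent.Helper27.TY
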