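import Pool.Agent.Gen.TY.X.XN
import Pool.Agent.Helper79.CV.FReps

/-!
MP_8ee768_co, project TH-Y': the root representatives of stage X (`M = 0`) are the first thirteen
members of `repsF`; they are complete by `ClsOK 4 repsF`.
-/

set_option autoImplicit false

namespace Pool.Agent.Helper27.TY

open Finset
open Pool.Agent.Helper97.CV
open Pool.Agent.Helper79.CV
open Pool.Agent.Helper82.TY (below)

theorem take_repsF : repsF.take 13 = Pool.Agent.Gen.TY.X.XN.reps := by decide +kernel

/-- every point below 12 is in a member -/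
theorem exists_block {D : Finset (Finset (Fin 13))} (h : OddFam 3 (below 12) D) {a : Fin 13}
    (ha : a ≠ 12) : ∃ b ∈ D, a ∈ b := by
  have ha' : a ∈ below 12 := mem_below.2 (by
    have h1 := a.isLt
    have h2 : a.val ≠ 12 := fun e => ha (Fin.ext e)
    omega)
  have h3 : 3 ≤ (below 12).card := by rw [show (below 12).card = 12 by decide]; norm_num
  obtain ⟨s, hs, hsc⟩ : ∃ s : Finset (Fin 13), a ∈ s ∧ s ⊆ below 12 ∧ s.card = 3 := by
    obtain ⟨t, h4, h5, h6⟩ := Finset.exists_subsuperset_card_eq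
      (singleton_subset_iff.2 ha') (by rw [card_singleton]; norm_num) h3
    exact ⟨t, singleton_subset_iff.1 h4, h5, h6⟩
  have h7 := h.2 s hsc.1 hsc.2
  have h8 : cnt D s ≠ 0 := fun e => by rw [e] at h7; exact absurd h7 (by decide)
  unfold cnt at h8
  obtain ⟨b, hb⟩ := card_pos.1 (Nat.pos_of_ne_zero h8)
  rw [mem_filter] at hb
  exact ⟨b, hb.1, hb.2 hs⟩

/-- the thirteen classes with `M = 0` -/
theorem rootOK_X (h : ClsOK 4 repsF) :
    RootOK 0 (fun _ => True) Pool.Agent.Gen.TY.X.XN.reps := by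
  intro D h1 h2 _
  obtain ⟨j, r, hr, σ, hσ⟩ := h D h1 (by omega)
  have hc : szF j ≤ 57 := by
    rw [← repsF_card hr, ← hσ, card_mapF]
    omega
  rw [szF_eq] at hc
  have hj : j < 13 := by
    by_contra h3
    rw [if_neg h3] at hc
    split_ifs at hc <;> omega
  refine ⟨σ, ?_, r, ?_, hσ⟩
  · by_contra h12
    obtain ⟨a, ha⟩ := σ.surjective 12
    have ha12 : a ≠ 12 := fun e => h12 (e ▸ ha)
    obtain ⟨b, hb, hab⟩ := exists_block h1 ha12
    have h4 : mapS σ b ∈ fam 12 4 r := by rw [← hσ]; exact mem_mapF.2 hb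
    have h5 := (sub_of_mem_fam (by norm_num) h4).1
    have h6 : (12 : Fin 13) ∈ mapS σ b := by rw [← ha]; exact mem_mapS.2 hab
    have h7 := Pool.Agent.Helper79.CV.mk_lt_iff.1 h5 12 h6
    exact absurd h7 (by decide)
  · rw [← take_repsF, List.mem_take_iff_getElem]
    rw [List.getElem?_eq_some_iff] at hr
    obtain ⟨hl, he⟩ := hr
    exact ⟨j, by omega, he⟩

end Pool.Agent.Helper27.TY
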