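import Pool.Agent.Helper74.TY.XNorm
import Pool.Agent.Helper16.TY.Cls
import Pool.Agent.Helper67.TY.Sols

/-!
MP_8ee768_co, project TH-Y': `XNorm` (helper74) by helper16's network on packed lanes. The lane of
the four-set `Y` is the code of the class representative together with the marker of `Y` in the
bits `495 .. 506`; after the network all the markers are `{8, 9, 10, 11}` and the codes are in the
list of the root codes.
-/

set_option autoImplicit false

namespace Pool.Agent.Helper27.TY

open Finset
open Pool.Agent.Helper63.SIMD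
open Pool.Agent.Helper89.CV (OddCover ofMask)
open Pool.Agent.Helper97.CV
open Pool.Agent.Helper79.CV
open Pool.Agent.Helper33.CV
open Pool.Agent.Helper16.TY
open Pool.Agent.Helper74.TY

/-- the family of the singletons of `Y` -/
def sing (Y : Finset (Fin 13)) : Finset (Finset (Fin 13)) := Y.image fun a => {a}

theorem mem_sing {Y : Finset (Fin 13)} {a : Fin 13} : ({a} : Finset (Fin 13)) ∈ sing Y ↔ a ∈ Y := by
  unfold sing
  rw [mem_image]
  constructor
  · rintro ⟨b, hb, h⟩
    rw [singleton_inj] at h
    exact h ▸ hb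
  · intro h
    exact ⟨a, h, rfl⟩

theorem mem_mapF_sing {σ : Equiv.Perm (Fin 13)} {Y : Finset (Fin 13)} {a : Fin 13} :
    ({a} : Finset (Fin 13)) ∈ mapF σ (sing Y) ↔ a ∈ mapS σ Y := by
  rw [mem_mapF', mem_mapS']
  have h : mapS σ.symm {a} = {σ.symm a} := by
    unfold mapS
    rw [map_singleton]
    rfl
  rw [h, mem_sing]

theorem L_one : L 12 1 = [1, 2, 4, 8, 16, 32, 64, 128, 256, 512, 1024, 2048] := by decide +kernel

theorem ofMask_two_pow (p : Fin 13) : ofMask (2 ^ p.val) = {p} := by
  revert p
  decide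

/-- bits of the code of a family of singletons -/
theorem testBit_enc_one (F : Finset (Finset (Fin 13))) (p : Fin 13) (hp : p.val < 12) :
    (enc 12 1 F).testBit p.val = decide (({p} : Finset (Fin 13)) ∈ F) := by
  have h : p.val < (L 12 1).length := by rw [L_one]; exact hp
  rw [testBit_enc F h]
  have h2 : (L 12 1)[p.val] = 2 ^ p.val := by
    have h3 : ∀ q : Fin 12, ([1, 2, 4, 8, 16, 32, 64, 128, 256, 512, 1024, 2048] : List ℕ)[q.val] =
        2 ^ q.val := by decide
    have h4 := h3 ⟨p.val, hp⟩
    simp only [L_one]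
    exact h4
  rw [h2, ofMask_two_pow]

theorem enc_sing {Y : Finset (Fin 13)} (hY : (12 : Fin 13) ∉ Y) : enc 12 1 (sing Y) = mk Y := by
  refine Nat.eq_of_testBit_eq fun j => ?_
  by_cases hj : j < 12
  · have h1 := testBit_enc_one (sing Y) ⟨j, by omega⟩ hj
    have h2 := testBit_mk Y ⟨j, by omega⟩
    simp only at h1 h2
    rw [h1, h2]
    simp only [mem_sing]
  · have h1 : (enc 12 1 (sing Y)).testBit j = false := by
      refine testBit_enc_ge _ ?_
      rw [L_one]
      exact not_lt.1 hj
    rw [h1]
    by_cases h12 : j = 12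
    · subst h12
      have h2 := testBit_mk Y 12
      rw [decide_eq_false hY] at h2
      exact h2.symm
    · exact (testBit_mk_ge Y (by omega)).symm

/-- the `n`-th member of a list, `0` beyond the end -/
def nth : List ℕ → ℕ → ℕ
  | [], _ => 0
  | a :: _, 0 => a
  | _ :: l, n + 1 => nth l n

theorem nth_mem {l : List ℕ} {n : ℕ} (h : n < l.length) : nth l n ∈ l := by
  induction l generalizing n with
  | nil => exact absurd h (by simp)
  | cons a l ih =>
    cases n with
    | zero => exact List.mem_cons_self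
    | succ n =>
      have h1 : n < l.length := by simpa using h
      exact List.mem_cons_of_mem _ (ih h1)

theorem split_eq {K a b x y : ℕ} (hx : x < K) (hy : y < K) (h : K * a + x = K * b + y) :
    a = b ∧ x = y := by
  have h0 : 0 < K := lt_of_le_of_lt (Nat.zero_le x) hx
  constructor
  · have h1 := congrArg (fun v => v / K) h
    simp only [Nat.mul_add_div h0] at h1
    rwa [Nat.div_eq_of_lt hx, Nat.div_eq_of_lt hy, Nat.add_zero, Nat.add_zero] at h1
  · have h1 := congrArg (fun v => v % K) h
    simp only [Nat.mul_add_mod] at h1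
    rwa [Nat.mod_eq_of_lt hx, Nat.mod_eq_of_lt hy] at h1

theorem pack_lt {K M a x : ℕ} (hx : x < K) (ha : a < M) : K * a + x < K * M :=
  calc K * a + x < K * a + K := Nat.add_lt_add_left hx _
    _ = K * (a + 1) := by rw [Nat.mul_add, Nat.mul_one]
    _ ≤ K * M := Nat.mul_le_mul_left _ ha

theorem add_mul_eq (a b c : ℕ) : Nat.add (Nat.mul a b) c = a * b + c := rfl

/-- the check for one representative `r`: network bits `cs` and positions `js` (one for every
four-set, masks ascending) -/
def xnN (r : ℕ) (codes cs js : List ℕ) : Bool :=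
  Nat.blt r (2 ^ 495) && (allLt (2 ^ 495) codes && (Nat.beq js.length 495 &&
    (allLt codes.length js && Nat.beq
      (runN (rep 512 495) net (packL 512 cs)
        (packL 512 ((L 12 4).map fun m => Nat.add (Nat.mul (2 ^ 495) m) r)))
      (packL 512 (js.map fun j => Nat.add (Nat.mul (2 ^ 495) 3840) (nth codes j))))))

theorem xnN_sound {r : ℕ} {codes cs js : List ℕ} (h : xnN r codes cs js = true) :
    XNorm [r] codes := by
  unfold xnN at h
  rw [Bool.and_eq_true, Bool.and_eq_true, Bool.and_eq_true, Bool.and_eq_true, Nat.blt_eq,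
    Nat.beq_eq, Nat.beq_eq] at h
  obtain ⟨hr, hc, hlen, hj, hrun⟩ := h
  have hr2 : r < 2 ^ Nat.choose 12 4 := by
    have e : Nat.choose 12 4 = 495 := by decide
    rw [e]
    exact hr
  have hc' := lt_of_allLt hc
  have hj' := lt_of_allLt hj
  intro r' hr' Y hY h12
  rw [List.mem_singleton] at hr'
  subst hr'
  have hlt : mk Y < 2 ^ 12 := mk_lt_iff.2 fun a ha => by
    have h1 : a ≠ 12 := fun e => h12 (e ▸ ha)
    have h2 := a.isLt
    have h3 : a.val ≠ 12 := fun e => h1 (Fin.ext e)
    omega
  have hmem : mk Y ∈ L 12 4 := (sub_iff (by norm_num)).1 ⟨hlt, hY⟩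
  obtain ⟨i, hi, hiY⟩ := List.mem_iff_getElem.1 hmem
  have hL : (L 12 4).length = 495 := by rw [length_L]; decide
  have hi' : i < 495 := hL ▸ hi
  have hmlt : ∀ m ∈ L 12 4, m < 2 ^ 12 := fun m hm => ((mem_L (by norm_num)).1 hm).1
  have hp : (2 : ℕ) ^ 507 = 2 ^ 495 * 2 ^ 12 := by rw [← pow_add]
  have h507 : (2 : ℕ) ^ 507 < 2 ^ 512 := Nat.pow_lt_pow_right (by norm_num) (by norm_num)
  have hes : ∀ a ∈ (L 12 4).map (fun m => Nat.add (Nat.mul (2 ^ 495) m) r'), a < 2 ^ 512 := by
    intro a ha
    rw [List.mem_map] at ha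
    obtain ⟨m, hm, rfl⟩ := ha
    rw [add_mul_eq]
    exact lt_trans (hp ▸ pack_lt hr (hmlt m hm)) h507
  have hi2 : i < ((L 12 4).map (fun m => Nat.add (Nat.mul (2 ^ 495) m) r')).length := by
    rw [List.length_map, hL]
    exact hi'
  have hX : fld 512 (packL 512 ((L 12 4).map fun m => Nat.add (Nat.mul (2 ^ 495) m) r')) i =
      code (fam 12 4 r') (sing Y) := by
    rw [fld_packL hes hi2, List.getElem_map, hiY]
    unfold code
    rw [enc_sing h12, enc_fam (by norm_num) hr2, add_mul_eq]
  obtain ⟨σ, hσ, h6⟩ := net_sound (P := packL 512 cs) (N := 495) hi' hX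
  rw [hrun] at h6
  have hij : i < (js.map fun j => Nat.add (Nat.mul (2 ^ 495) 3840) (nth codes j)).length := by
    rw [List.length_map, hlen]
    exact hi'
  have hijs : i < js.length := hlen ▸ hi'
  have hcj : nth codes (js[i]'hijs) < 2 ^ 495 := hc' _ (nth_mem (hj' _ (List.getElem_mem hijs)))
  have hlt2 : ∀ a ∈ js.map (fun j => Nat.add (Nat.mul (2 ^ 495) 3840) (nth codes j)),
      a < 2 ^ 512 := by
    intro a ha
    rw [List.mem_map] at ha
    obtain ⟨j, hjm, rfl⟩ := ha
    have h2 : nth codes j < 2 ^ 495 := hc' _ (nth_mem (hj' _ hjm))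
    rw [add_mul_eq]
    exact lt_trans (hp ▸ pack_lt h2 (by norm_num)) h507
  rw [fld_packL hlt2 hij, List.getElem_map, add_mul_eq] at h6
  unfold code at h6
  have h8 : enc 12 4 (mapF σ (fam 12 4 r')) < 2 ^ 495 := enc_lt 12 4 _
  obtain ⟨h10, h9⟩ := split_eq hcj h8 h6
  refine ⟨σ, hσ, ?_, nth codes (js[i]'hijs), nth_mem (hj' _ (List.getElem_mem hijs)), ?_⟩
  · ext a
    rw [← mem_mapF_sing]
    by_cases ha : a.val < 12
    · have h11 := testBit_enc_one (mapF σ (sing Y)) a ha
      rw [← h10] at h11
      have h12' : ∀ b : Fin 13, b.val < 12 → (Nat.testBit 3840 b.val = decide (b ∈ Y8)) := by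
        decide
      rw [h12' a ha] at h11
      exact (decide_eq_decide.1 h11).symm
    · have ha' : a = 12 := by
        apply Fin.ext
        have := a.isLt
        show a.val = 12
        omega
      subst ha'
      rw [mem_mapF_sing, mem_mapS']
      have h13 : σ.symm 12 = 12 := by rw [Equiv.symm_apply_eq, hσ]
      rw [h13]
      constructor
      · intro h14
        exact absurd h14 h12
      · intro h14
        exact absurd h14 (by decide)
  · rw [h9, fam_enc (by norm_num)]
    exact Pool.Agent.Helper67.TY.sub_map (fun s hs => sub_of_mem_fam (by norm_num) hs) hσ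

theorem xnorm_cons {r : ℕ} {rs c1 c2 : List ℕ} (h1 : XNorm [r] c1) (h2 : XNorm rs c2) :
    XNorm (r :: rs) (c1 ++ c2) := XNorm.append h1 h2

end Pool.Agent.Helper27.TY
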